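import Pool.Agent.H64.EV.Targets

/-! Row OMC of `evn_modules`: contractions of two classes (after H79/NIL/MCC). -/

set_option autoImplicit false

open Matrix Pool.Agent.H64.CC Pool.Agent.H2.NL Pool.Agent.H64.EV

namespace Pool.Agent.H67.EV

/-- the iterated contractions of `x ⊗ z` in the middle -/
def TT {K : Type} [Field K] {I : Type} [Fintype I] [DecidableEq I] (F : OForm K I) (k : ℕ)
    (x z : List I → K) : ℕ → List I → K
  | 0 => tp (2 * k) x z
  | i + 1 => con F.η (2 * k - 1 - i) (TT F k x z i)

lemma TT_mem {K : Type} [Field K] [CharZero K] {I : Type} [Fintype I] [DecidableEq I]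
    (F : OForm K I) (A : ℕ → Submodule ℚ (List I → K)) (hA : Calc F.o F.η F.ω A) (k : ℕ)
    (x z : List I → K) (hx : x ∈ A k) (hz : z ∈ A k) (i : ℕ) (hi : i ≤ 2 * k) :
    TT F k x z i ∈ A (2 * k - i) := by
  induction i with
  | zero =>
    have h := hA.tp k k x z hx hz
    rw [← two_mul] at h
    exact h
  | succ i ih =>
    have h := ih (by omega)
    obtain ⟨j, hj⟩ : ∃ j, 2 * k - i = j + 1 := ⟨2 * k - i - 1, by omega⟩
    rw [hj] at h
    have hj2 : 2 * k - (i + 1) = j := by omega
    have hj3 : 2 * k - 1 - i = j := by omega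
    rw [hj2, TT, hj3]
    exact hA.con j j _ h (by omega)

lemma TT_val {K : Type} [Field K] {I : Type} [Fintype I] [DecidableEq I] (F : OForm K I) (k : ℕ)
    (x y : List I → K) (i : ℕ) (hi : i ≤ 2 * k) : ∀ α β : List I, α.length = 2 * k - i →
    TT F k x (rv y) i (α ++ β) = F.Pr i (fun l => x (α ++ l)) (fun l => y (β.reverse ++ l)) := by
  induction i with
  | zero =>
    intro α β hα
    have h2 : 2 * k = α.length := by omega
    rw [TT, h2, tp_append]
    simp [OForm.Pr, rv]
  | succ i ih =>
    intro α β hα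
    have h2 : 2 * k - 1 - i = α.length := by omega
    rw [TT, h2, OForm.con_append, OForm.Pr]
    refine Finset.sum_congr rfl fun a _ => ?_
    have h3 : α ++ a :: F.st a :: β = (α ++ [a]) ++ (F.st a :: β) := by simp
    rw [h3, ih (by omega) (α ++ [a]) (F.st a :: β) (by simp; omega)]
    simp

theorem pf_OMC : T_OMC := by
  intro K _ _ I _ _ F A hA k x y hk hx hy
  constructor
  · have h := TT_mem F A hA k x (rv y) hx hy (2 * k - 1) (by omega)
    have h1 : 2 * k - (2 * k - 1) = 1 := by omega
    rw [h1] at h
    refine hA.congr 1 _ _ h ?_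
    intro w hw
    match w, hw with
    | [a, d], _ =>
      have h2 := TT_val F k x y (2 * k - 1) (by omega) [a] [d] (by simp; omega)
      exact h2.symm
  · have h := TT_mem F A hA k x (rv y) hx hy (2 * k - 2) (by omega)
    have h1 : 2 * k - (2 * k - 2) = 2 := by omega
    rw [h1] at h
    refine hA.congr 2 _ _ h ?_
    intro w hw
    match w, hw with
    | [a, b, e, d], _ =>
      have h2 := TT_val F k x y (2 * k - 2) (by omega) [a, b] [e, d] (by simp; omega)
      exact h2.symm

end Pool.Agent.H67.EV
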