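import Pool.Agent.H64.EV.Targets

/-! Row OMV of `evn_modules`: moved places. -/

set_option autoImplicit false

open Matrix Pool.Agent.H64.CC Pool.Agent.H2.NL Pool.Agent.H64.EV

namespace Pool.Agent.H67.EV

theorem sws_all (hOPS : T_OPS) (hORE : T_ORE) {K : Type} [Field K] [CharZero K] {I : Type}
    [Fintype I] [DecidableEq I] (F : OForm K I) (A : ℕ → Submodule ℚ (List I → K))
    (hA : Calc F.o F.η F.ω A) (k : ℕ) (x y : List I → K) :
    ∀ js : List ℕ, (∀ j ∈ js, j + 2 ≤ 2 * k) →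
      (x ∈ A k → sws F.o js x ∈ A k) ∧ (rv y ∈ A k → rv (sws F.o js y) ∈ A k) ∧
      F.Pr (2 * k) (sws F.o js x) (sws F.o js y) = F.Pr (2 * k) x y
  | [], _ => ⟨fun h => h, fun h => h, rfl⟩
  | j :: js, hj => by
    obtain ⟨h1, h2, h3⟩ := sws_all hOPS hORE F A hA k x y js
      fun i hi => hj i (List.mem_cons_of_mem _ hi)
    have hj0 : j + 2 ≤ 2 * k := hj j (List.mem_cons_self ..)
    refine ⟨fun h => hA.sw k j _ (h1 h) hj0, fun h => ?_, ?_⟩
    · have h4 := hA.sw k (2 * k - 2 - j) _ (h2 h) (by omega)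
      refine hA.congr k _ _ h4 fun w hw => ?_
      have h5 := (hORE K I F (2 * k) (sws F.o js y)).1 (2 * k - 2 - j) (by omega) w hw
      have h6 : 2 * k - 2 - (2 * k - 2 - j) = j := by omega
      rw [h6] at h5
      exact h5.symm
    · rw [← h3]
      exact (hOPS K I F (2 * k) j (sws F.o js x) (sws F.o js y) hj0).1

theorem pf_OMV (hOPS : T_OPS) (hORE : T_ORE) : T_OMV := by
  intro K _ _ I _ _ F A hA k i x y hi
  refine sws_all hOPS hORE F A hA k x y (List.range' 1 (i - 1)) fun j hj => ?_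
  have h := List.mem_range'_1.1 hj
  omega

end Pool.Agent.H67.EV
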